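import Pool.Agent.W279.TriS.Defs

/-!
# Filling over the p-adic numbers (helper554, subtask SA-PADIC of helper279)
-/

set_option autoImplicit false

namespace Pool.Agent.W554.SA

open Pool.Agent.W279.Tri Pool.Agent.W279.TriS Filter Topology

section ring

variable {L : Type*} [CommRing L]

lemma ff_sub (m : Fin 3 → Fin 3 → L) (t s s' : L) :
    ff m t s - ff m t s' = (s - s') * hh m t s s' := by
  unfold ff hh; ring

lemma ff_sub' (m : Fin 3 → Fin 3 → L) (t t' s : L) :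
    ff m t s - ff m t' s = (t - t') * kk m s t t' := by
  unfold ff kk co; ring

lemma curve_rel {m : Fin 3 → Fin 3 → L} {t s t' s' : L} (h : ff m t s = 0)
    (h' : ff m t' s' = 0) : (s - s') * hh m t s s' = -((t - t') * kk m s' t t') := by
  have h1 := ff_sub m t s s'
  have h2 := ff_sub' m t t' s'
  linear_combination h - h' - h1 - h2

lemma Ph_symm (m : Fin 3 → Fin 3 → L) (t s t' s' : L) : Ph m t s t' s' = Ph m t' s' t s := by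
  unfold Ph hh; ring

lemma Ph_sub (m : Fin 3 → Fin 3 → L) (t s t2 s2 t1 s1 : L) :
    Ph m t s t1 s1 - Ph m t2 s2 t1 s1 =
      (t - t2) * (((m 1 1 + m 2 1 * (t + t2)) + (m 1 2 + m 2 2 * (t + t2)) * (s + s1)) *
        hh m t1 s s1) +
      (s - s2) * (co m 2 t2 * hh m t1 s s1 + hh m t2 s2 s1 * co m 2 t1) := by
  unfold Ph hh co; ring

end ring

/-- uniqueness of the coordinate -/
lemma At_unique {L : Type*} [Field L] {ξ ξ' u : Fin 2 → L} {t t' : L} (hb : br ξ ξ' ≠ 0)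
    (h : At ξ ξ' u t) (h' : At ξ ξ' u t') : t = t' := by
  obtain ⟨a, ha, hu⟩ := h
  obtain ⟨a', ha', hu'⟩ := h'
  have h0 : br u u = 0 := br_self u
  have h1 : br u u = a * a' * ((t' - t) * br ξ ξ') := by
    conv_lhs => rw [hu]
    rw [br_smul_left, ← hu]
    conv_lhs => rw [hu']
    rw [br_smul_right]
    simp only [br, Pi.add_apply, Pi.smul_apply, smul_eq_mul]
    ring
  rw [h0] at h1
  have h2 := h1.symm
  have h3 : (t' - t) * br ξ ξ' = 0 := by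
    rcases mul_eq_zero.1 h2 with h | h
    · exact absurd h (mul_ne_zero ha ha')
    · exact h
  rcases mul_eq_zero.1 h3 with h | h
  · exact (sub_eq_zero.1 h).symm
  · exact absurd h hb

variable {p : ℕ} [Fact p.Prime]

lemma nadd {a b : ℚ_[p]} {c : ℝ} (ha : ‖a‖ ≤ c) (hb : ‖b‖ ≤ c) : ‖a + b‖ ≤ c :=
  (Padic.nonarchimedean a b).trans (max_le ha hb)

lemma nsub {a b : ℚ_[p]} {c : ℝ} (ha : ‖a‖ ≤ c) (hb : ‖b‖ ≤ c) : ‖a - b‖ ≤ c := by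
  rw [sub_eq_add_neg]
  exact nadd ha (by rwa [norm_neg])

lemma nmul {a b : ℚ_[p]} {c d : ℝ} (ha : ‖a‖ ≤ c) (hb : ‖b‖ ≤ d) : ‖a * b‖ ≤ c * d := by
  rw [norm_mul]
  exact mul_le_mul ha hb (norm_nonneg _) ((norm_nonneg _).trans ha)

lemma nmul1 {a b : ℚ_[p]} {c : ℝ} (ha : ‖a‖ ≤ c) (hb : ‖b‖ ≤ 1) : ‖a * b‖ ≤ c := by
  simpa using nmul ha hb

lemma neq {a b : ℚ_[p]} {μ : ℝ} (ha : ‖a‖ = μ) (hb : ‖b‖ < μ) : ‖a + b‖ = μ := by
  rw [Padic.add_eq_max_of_ne (by rw [ha]; exact hb.ne'), ha, max_eq_left hb.le]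

/-- the local data of a curve near the origin -/
structure Loc (m : Fin 3 → Fin 3 → ℚ_[p]) (B μ r : ℝ) : Prop where
  hB : 1 ≤ B
  hμ : 0 < μ
  hr : 0 < r
  hr1 : r ≤ 1
  hBr : B * r < μ
  hm : ∀ j k, ‖m j k‖ ≤ B
  h01 : ‖m 0 1‖ = μ

namespace Loc

variable {m : Fin 3 → Fin 3 → ℚ_[p]} {B μ r : ℝ}

lemma pow2 {t : ℚ_[p]} (ht : ‖t‖ ≤ 1) : ‖t ^ 2‖ ≤ 1 := by
  rw [norm_pow]
  exact pow_le_one₀ (norm_nonneg _) ht

lemma co_le (h : Loc m B μ r) (k : Fin 3) {t : ℚ_[p]} (ht : ‖t‖ ≤ 1) : ‖co m k t‖ ≤ B := by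
  unfold co
  exact nadd (nadd (h.hm _ _) (nmul1 (h.hm _ _) ht)) (nmul1 (h.hm _ _) (pow2 ht))

lemma hh_le (h : Loc m B μ r) {t s s' : ℚ_[p]} (ht : ‖t‖ ≤ 1) (hs : ‖s‖ ≤ 1)
    (hs' : ‖s'‖ ≤ 1) : ‖hh m t s s'‖ ≤ B := by
  unfold hh
  exact nadd (h.co_le 1 ht) (nmul1 (h.co_le 2 ht) (nadd hs hs'))

lemma kk_le (h : Loc m B μ r) {t s s' : ℚ_[p]} (ht : ‖t‖ ≤ 1) (hs : ‖s‖ ≤ 1)
    (hs' : ‖s'‖ ≤ 1) : ‖kk m t s s'‖ ≤ B := by
  unfold kk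
  refine nadd ?_ (nmul1 ?_ (nadd hs hs'))
  · exact nadd (nadd (h.hm _ _) (nmul1 (h.hm _ _) ht)) (nmul1 (h.hm _ _) (pow2 ht))
  · exact nadd (nadd (h.hm _ _) (nmul1 (h.hm _ _) ht)) (nmul1 (h.hm _ _) (pow2 ht))

lemma hh_eq (h : Loc m B μ r) {t s s' : ℚ_[p]} (ht : ‖t‖ ≤ r) (hs : ‖s‖ ≤ r)
    (hs' : ‖s'‖ ≤ r) : ‖hh m t s s'‖ = μ := by
  have hB0 : 0 ≤ B := zero_le_one.trans h.hB
  have e : hh m t s s' = m 0 1 + (m 1 1 * t + m 2 1 * t ^ 2 + co m 2 t * (s + s')) := by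
    unfold hh co; ring
  rw [e]
  refine neq h.h01 (lt_of_le_of_lt ?_ h.hBr)
  have ht2 : ‖t ^ 2‖ ≤ r := by
    rw [norm_pow, pow_two]
    calc ‖t‖ * ‖t‖ ≤ r * 1 := mul_le_mul ht (ht.trans h.hr1) (norm_nonneg _) h.hr.le
      _ = r := mul_one r
  exact nadd (nadd (nmul (h.hm _ _) ht) (nmul (h.hm _ _) ht2))
    (nmul (h.co_le 2 (ht.trans h.hr1)) (nadd hs hs'))

lemma Ph_eq (h : Loc m B μ r) {t s t' s' : ℚ_[p]} (ht : ‖t‖ ≤ r) (hs : ‖s‖ ≤ r)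
    (ht' : ‖t'‖ ≤ r) (hs' : ‖s'‖ ≤ r) : ‖Ph m t s t' s'‖ = μ ^ 2 := by
  unfold Ph
  rw [norm_mul, h.hh_eq ht hs hs', h.hh_eq ht' hs hs', pow_two]

lemma lip (h : Loc m B μ r) {t s t' s' : ℚ_[p]} (ht : ‖t‖ ≤ r) (hs : ‖s‖ ≤ r)
    (ht' : ‖t'‖ ≤ r) (hs' : ‖s'‖ ≤ r) (hf : ff m t s = 0) (hf' : ff m t' s' = 0) :
    ‖s - s'‖ ≤ B / μ * ‖t - t'‖ := by
  have e := congrArg norm (curve_rel hf hf')
  rw [norm_mul, norm_neg, norm_mul, h.hh_eq ht hs hs'] at e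
  have hk := h.kk_le (hs'.trans h.hr1) (ht.trans h.hr1) (ht'.trans h.hr1)
  rw [div_mul_eq_mul_div, le_div_iff₀ h.hμ, e, mul_comm]
  exact mul_le_mul_of_nonneg_right hk (norm_nonneg _)

lemma Ph_lip (h : Loc m B μ r) {t s t1 s1 t2 s2 : ℚ_[p]} (ht : ‖t‖ ≤ r) (hs : ‖s‖ ≤ r)
    (ht1 : ‖t1‖ ≤ r) (hs1 : ‖s1‖ ≤ r) (ht2 : ‖t2‖ ≤ r) (hs2 : ‖s2‖ ≤ r) (hf : ff m t s = 0)
    (hf2 : ff m t2 s2 = 0) :
    ‖Ph m t s t1 s1 - Ph m t2 s2 t1 s1‖ ≤ B ^ 3 / μ * ‖t - t2‖ := by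
  have hB0 : 0 ≤ B := zero_le_one.trans h.hB
  have hr1 := h.hr1
  have hμB : μ ≤ B := by rw [← h.h01]; exact h.hm 0 1
  have hl := h.lip ht hs ht2 hs2 hf hf2
  rw [Ph_sub]
  have q1 : ‖((m 1 1 + m 2 1 * (t + t2)) + (m 1 2 + m 2 2 * (t + t2)) * (s + s1)) *
      hh m t1 s s1‖ ≤ B * B := by
    have e1 : ‖t + t2‖ ≤ 1 := nadd (ht.trans hr1) (ht2.trans hr1)
    have e2 : ‖s + s1‖ ≤ 1 := nadd (hs.trans hr1) (hs1.trans hr1)
    exact nmul (nadd (nadd (h.hm _ _) (nmul1 (h.hm _ _) e1))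
      (nmul1 (nadd (h.hm _ _) (nmul1 (h.hm _ _) e1)) e2))
      (h.hh_le (ht1.trans hr1) (hs.trans hr1) (hs1.trans hr1))
  have q2 : ‖co m 2 t2 * hh m t1 s s1 + hh m t2 s2 s1 * co m 2 t1‖ ≤ B * B :=
    nadd (nmul (h.co_le 2 (ht2.trans hr1))
      (h.hh_le (ht1.trans hr1) (hs.trans hr1) (hs1.trans hr1)))
      (nmul (h.hh_le (ht2.trans hr1) (hs2.trans hr1) (hs1.trans hr1))
        (h.co_le 2 (ht1.trans hr1)))
  refine nadd ?_ ?_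
  · refine (nmul le_rfl q1).trans ?_
    have h1 : B * B ≤ B ^ 3 / μ := by
      rw [le_div_iff₀ h.hμ]
      nlinarith [mul_nonneg hB0 hB0]
    calc ‖t - t2‖ * (B * B) ≤ ‖t - t2‖ * (B ^ 3 / μ) := by gcongr
      _ = _ := by ring
  · refine (nmul hl q2).trans (le_of_eq ?_)
    field_simp

/-- the second difference -/
lemma second (h : Loc m B μ r) {R β t0 s0 t1 s1 t2 s2 : ℚ_[p]}
    (ht0 : ‖t0‖ ≤ r) (hs0 : ‖s0‖ ≤ r)
    (ht1 : ‖t1‖ ≤ r) (hs1 : ‖s1‖ ≤ r) (ht2 : ‖t2‖ ≤ r) (hs2 : ‖s2‖ ≤ r)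
    (hf0 : ff m t0 s0 = 0) (hf2 : ff m t2 s2 = 0)
    (h01 : R * ((t0 - t1) ^ 2 * β ^ 2) = -Ph m t0 s0 t1 s1)
    (h12 : R * ((t1 - t2) ^ 2 * β ^ 2) = -Ph m t1 s1 t2 s2) (hne : t0 ≠ t2) :
    ‖t2 - 2 * t1 + t0‖ ≤ B ^ 3 / μ ^ 3 * ‖t1 - t0‖ ^ 2 := by
  have hP := h.Ph_eq ht0 hs0 ht1 hs1
  have hPl := h.Ph_lip ht0 hs0 ht1 hs1 ht2 hs2 hf0 hf2
  have e1 : (t0 - t2) * ((2 * t1 - t0 - t2) * Ph m t0 s0 t1 s1) =
      -((t1 - t0) ^ 2 * (Ph m t0 s0 t1 s1 - Ph m t2 s2 t1 s1)) := by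
    rw [Ph_symm m t2 s2 t1 s1]
    have a1 : Ph m t0 s0 t1 s1 = -(R * ((t0 - t1) ^ 2 * β ^ 2)) := by rw [h01]; ring
    have a2 : Ph m t1 s1 t2 s2 = -(R * ((t1 - t2) ^ 2 * β ^ 2)) := by rw [h12]; ring
    rw [a1, a2]
    ring
  have e2 := congrArg norm e1
  rw [norm_mul, norm_mul, norm_neg, norm_mul, norm_pow, hP] at e2
  have hpos : 0 < ‖t0 - t2‖ := norm_pos_iff.2 (sub_ne_zero.2 hne)
  have e3 : ‖t0 - t2‖ * (‖2 * t1 - t0 - t2‖ * μ ^ 2) ≤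
      ‖t0 - t2‖ * (‖t1 - t0‖ ^ 2 * (B ^ 3 / μ)) := by
    rw [e2]
    calc ‖t1 - t0‖ ^ 2 * ‖Ph m t0 s0 t1 s1 - Ph m t2 s2 t1 s1‖
        ≤ ‖t1 - t0‖ ^ 2 * (B ^ 3 / μ * ‖t0 - t2‖) := by gcongr
      _ = _ := by ring
  have e4 := le_of_mul_le_mul_left e3 hpos
  have e5 : ‖t2 - 2 * t1 + t0‖ = ‖2 * t1 - t0 - t2‖ := by
    rw [← norm_neg]
    congr 1
    ring
  rw [e5]
  have hμ2 : 0 < μ ^ 2 := pow_pos h.hμ 2
  have hμ := h.hμ
  have e6 : B ^ 3 / μ ^ 3 * ‖t1 - t0‖ ^ 2 = ‖t1 - t0‖ ^ 2 * (B ^ 3 / μ) / μ ^ 2 := by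
    field_simp
  rw [e6, le_div_iff₀ hμ2]
  exact e4

end Loc

lemma continuous_G {L : Type*} [NontriviallyNormedField L] (x y : Fin 2 → L) :
    Continuous fun g : Fin 3 → Fin 3 → L => G g x y := by
  unfold G
  refine continuous_finsetSum _ fun i _ => continuous_finsetSum _ fun j _ => ?_
  exact (continuous_apply_apply i j).mul continuous_const

lemma continuous_Pv {L : Type*} [NontriviallyNormedField L] (x y z : Fin 2 → L) :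
    Continuous fun g : Fin 3 → Fin 3 → L => Pv g x y z := by
  unfold Pv
  exact ((continuous_G _ _).sub (continuous_G _ _)).sub (continuous_G _ _)

lemma continuous_fr {L : Type*} [NontriviallyNormedField L] (x y z : Fin 2 → L) (k : Fin 3) :
    Continuous fun g : Fin 3 → Fin 3 → L => fr g x y z k := by
  unfold fr
  match k with
  | 0 => exact continuous_G _ _
  | 1 => exact continuous_Pv _ _ _
  | 2 => exact continuous_G _ _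

lemma continuous_fm {L : Type*} [NontriviallyNormedField L] (ξ ξ' η η' : Fin 2 → L)
    (j k : Fin 3) : Continuous fun g : Fin 3 → Fin 3 → L => fm g ξ ξ' η η' j k := by
  unfold fm
  match j with
  | 0 => exact continuous_fr _ _ _ _
  | 1 => exact ((continuous_fr _ _ _ _).sub (continuous_fr _ _ _ _)).sub (continuous_fr _ _ _ _)
  | 2 => exact continuous_fr _ _ _ _

lemma exists_loc_aux (m₀ : Fin 3 → Fin 3 → ℚ_[p]) (h : m₀ 0 1 ≠ 0) {δ₁ : ℝ} (hδ₁ : 0 < δ₁) :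
    ∃ B μ r : ℝ, 0 < μ ∧ 0 < r ∧ r ≤ δ₁ ∧
      ∀ m : Fin 3 → Fin 3 → ℚ_[p], (∀ j k, ‖m j k - m₀ j k‖ < μ) → Loc m B μ r := by
  have hμ0 : 0 < ‖m₀ 0 1‖ := norm_pos_iff.2 h
  generalize hμ : ‖m₀ 0 1‖ = μ at hμ0
  have hsum : ∀ j k, ‖m₀ j k‖ ≤ ∑ j, ∑ k, ‖m₀ j k‖ := by
    intro j k
    have s1 : ‖m₀ j k‖ ≤ ∑ k, ‖m₀ j k‖ :=
      Finset.single_le_sum (f := fun k => ‖m₀ j k‖) (fun _ _ => norm_nonneg _) (Finset.mem_univ k)
    have s2 : ∑ k, ‖m₀ j k‖ ≤ ∑ j, ∑ k, ‖m₀ j k‖ :=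
      Finset.single_le_sum (f := fun j => ∑ k, ‖m₀ j k‖)
        (fun _ _ => Finset.sum_nonneg fun _ _ => norm_nonneg _) (Finset.mem_univ j)
    exact s1.trans s2
  have hS0 : 0 ≤ ∑ j, ∑ k, ‖m₀ j k‖ :=
    Finset.sum_nonneg fun _ _ => Finset.sum_nonneg fun _ _ => norm_nonneg _
  generalize hS : ∑ j, ∑ k, ‖m₀ j k‖ = S0 at hsum hS0
  have hB0 : 0 < 1 + μ + S0 := by linarith
  refine ⟨1 + μ + S0, μ, min (min 1 δ₁) (μ / (2 * (1 + μ + S0))), hμ0, by positivity,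
    (min_le_left _ _).trans (min_le_right _ _), fun m hn => ?_⟩
  refine ⟨by linarith, hμ0, by positivity, (min_le_left _ _).trans (min_le_left _ _), ?_, ?_, ?_⟩
  · calc (1 + μ + S0) * min (min 1 δ₁) (μ / (2 * (1 + μ + S0)))
        ≤ (1 + μ + S0) * (μ / (2 * (1 + μ + S0))) := by
          gcongr
          exact min_le_right _ _
      _ = μ / 2 := by field_simp
      _ < μ := by linarith
  · intro j k
    have e1 : m j k = m₀ j k + (m j k - m₀ j k) := by ring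
    rw [e1]
    exact nadd ((hsum j k).trans (by linarith)) ((hn j k).le.trans (by linarith))
  · have e1 : m 0 1 = m₀ 0 1 + (m 0 1 - m₀ 0 1) := by ring
    rw [e1]
    exact neq hμ (hn 0 1)

/-- local data, uniformly -/
lemma exists_loc (g₀ : Fin 3 → Fin 3 → ℚ_[p]) (ξ ξ' η η' : Fin 2 → ℚ_[p])
    (h : Pv g₀ ξ η η' ≠ 0) {δ₁ : ℝ} (hδ₁ : 0 < δ₁) :
    ∃ B μ r ε₁ : ℝ, 0 < ε₁ ∧ ε₁ ≤ 1 ∧ 0 < r ∧ r ≤ δ₁ ∧
      ∀ g : Fin 3 → Fin 3 → ℚ_[p], ‖g - g₀‖ ≤ ε₁ → Loc (fm g ξ ξ' η η') B μ r := by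
  have h01 : fm g₀ ξ ξ' η η' 0 1 ≠ 0 := h
  obtain ⟨B, μ, r, hμ0, hr, hrδ, hm⟩ := exists_loc_aux (fm g₀ ξ ξ' η η') h01 hδ₁
  have hev : ∀ᶠ g in 𝓝 g₀, ∀ j k, ‖fm g ξ ξ' η η' j k - fm g₀ ξ ξ' η η' j k‖ < μ := by
    rw [eventually_all]
    intro j
    rw [eventually_all]
    intro k
    have hc : Continuous fun g : Fin 3 → Fin 3 → ℚ_[p] =>
        ‖fm g ξ ξ' η η' j k - fm g₀ ξ ξ' η η' j k‖ :=
      ((continuous_fm ξ ξ' η η' j k).sub continuous_const).norm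
    have h0 : ‖fm g₀ ξ ξ' η η' j k - fm g₀ ξ ξ' η η' j k‖ < μ := by
      rw [sub_self, norm_zero]; exact hμ0
    exact hc.continuousAt.eventually_lt continuousAt_const h0
  obtain ⟨e, he, hball⟩ := Metric.eventually_nhds_iff.1 hev
  refine ⟨B, μ, r, min 1 (e / 2), by positivity, min_le_left _ _, hr, hrδ, fun g hg => ?_⟩
  have hd : dist g g₀ < e := by
    rw [dist_eq_norm]
    exact lt_of_le_of_lt (hg.trans (min_le_right _ _)) (by linarith)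
  exact hm _ (hball hd)

theorem main (hrel : StmtRel) (hclose : StmtClose) (hseq : StmtSeq) : StmtPadic := by
  intro p hp g₀ ξ ξ' η η' hξ hη hG0 hPv δ₁ hδ₁
  obtain ⟨B, μ, r, ε₁, hε₁, hε₁1, hr, hrδ, hloc⟩ := exists_loc g₀ ξ ξ' η η' hPv hδ₁
  obtain ⟨D₀, hD₀, hcl⟩ := hclose ℚ_[p] (‖g₀‖ + 1) ξ ξ' η η' hξ hη
  have hL0 := hloc g₀ (by simpa using hε₁.le)
  have hμ := hL0.hμ
  have hB0 : 0 < B := lt_of_lt_of_le one_pos hL0.hB
  have hr1 := hL0.hr1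
  set β := br ξ ξ' * br η η' with hβ
  have hβ0 : 0 < ‖β‖ := norm_pos_iff.2 (mul_ne_zero hξ hη)
  set K := B ^ 3 / μ ^ 3 with hK
  have hK0 : 0 < K := by positivity
  have hp0 : (0 : ℝ) < p := by exact_mod_cast hp.out.pos
  refine ⟨r, ε₁, max ((D₀ / r) ^ 2) ((K * p * μ / ‖β‖) ^ 2 + 1), hr, hε₁, fun M => ?_⟩
  refine ⟨μ / (‖β‖ * (|M| + 1)), by positivity, ?_⟩
  intro g hg hSm u v hO n w t s hw hnear ht hs hD hM τ hτ ε hε
  have hL := hloc g hg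
  have hgB : ‖g‖ ≤ ‖g₀‖ + 1 := by
    calc ‖g‖ = ‖g₀ + (g - g₀)‖ := by congr 1; abel
      _ ≤ ‖g₀‖ + ‖g - g₀‖ := norm_add_le _ _
      _ ≤ _ := by linarith
  set R := Rr g (u 0) (v 0) (u w) (v w) with hR
  have hD1 : (D₀ / r) ^ 2 ≤ ‖R‖ := (le_max_left _ _).trans hD
  have hD2 : (K * p * μ / ‖β‖) ^ 2 + 1 ≤ ‖R‖ := (le_max_right _ _).trans hD
  -- the points stay in the box
  have hbox : ∀ k : ℕ, ∃ t' s', Near ξ ξ' η η' u v (n + k * w) t' s' ∧ ‖t'‖ ≤ r ∧ ‖s'‖ ≤ r := by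
    intro k
    induction k with
    | zero => exact ⟨t, s, by simpa using hnear, ht, hs⟩
    | succ k ih =>
      obtain ⟨t1, s1, ⟨hA, hA'⟩, ht1, hs1⟩ := ih
      have hne : n + k * w ≠ n + (k + 1) * w := by
        have : (k + 1) * w = k * w + w := by ring
        omega
      have hidx : n + (k + 1) * w = n + k * w + w := by ring
      obtain ⟨t2, s2, hA2, hA2', ht2, hs2⟩ := hcl g hgB (u (n + k * w)) (v (n + k * w))
        (u (n + (k + 1) * w)) (v (n + (k + 1) * w)) (hO.hu0 _) (hO.hv0 _) (hO.hu0 _) (hO.hv0 _)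
        (hO.G0 _) (hO.G0 _) (hO.hdu _ _ hne) (hO.hdv _ _ hne) t1 s1 hA hA' (ht1.trans hr1)
        (hs1.trans hr1) r hr hr1 (by rw [hidx, hO.inv _ _ hw]; exact hD1)
      refine ⟨t2, s2, ⟨hA2, hA2'⟩, ?_, ?_⟩
      · have : t2 = t1 + (t2 - t1) := by ring
        rw [this]
        exact nadd ht1 ht2
      · have : s2 = s1 + (s2 - s1) := by ring
        rw [this]
        exact nadd hs1 hs2
  choose T S hN hT hS using hbox
  have hT0 : T 0 = t := by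
    have h1 := (hN 0).1
    rw [zero_mul, add_zero] at h1
    exact At_unique hξ h1 hnear.1
  -- relations
  have hrelT : ∀ i j : ℕ, j ≠ 0 → ff (fm g ξ ξ' η η') (T i) (S i) = 0 ∧ T (i + j) ≠ T i ∧
      Rr g (u 0) (v 0) (u (j * w)) (v (j * w)) * ((T i - T (i + j)) ^ 2 * β ^ 2) =
        -Ph (fm g ξ ξ' η η') (T i) (S i) (T (i + j)) (S (i + j)) := by
    intro i j hj
    have hjw : j * w ≠ 0 := mul_ne_zero hj hw
    have hidx : n + (i + j) * w = n + i * w + j * w := by ring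
    have hne : n + i * w ≠ n + (i + j) * w := by rw [hidx]; omega
    obtain ⟨c1, c2, c3⟩ := hrel ℚ_[p] g ξ ξ' η η' (u (n + i * w)) (v (n + i * w))
      (u (n + (i + j) * w)) (v (n + (i + j) * w)) (T i) (S i) (T (i + j)) (S (i + j))
      (hN i).1 (hN i).2 (hN (i + j)).1 (hN (i + j)).2 (hO.G0 _) (hO.G0 _) (hO.hdu _ _ hne)
      (hO.hdv _ _ hne)
    refine ⟨c1, c2, ?_⟩
    rw [← c3, hidx, hO.inv _ _ hjw, hβ]
  have hsqr : ∀ i j : ℕ, j ≠ 0 →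
      ‖Rr g (u 0) (v 0) (u (j * w)) (v (j * w))‖ * (‖T (i + j) - T i‖ * ‖β‖) ^ 2 = μ ^ 2 := by
    intro i j hj
    have h1 := congrArg norm (hrelT i j hj).2.2
    rw [norm_neg, hL.Ph_eq (hT _) (hS _) (hT _) (hS _), norm_mul, norm_mul, norm_pow,
      norm_pow, norm_sub_rev] at h1
    rw [← h1]
    ring
  have hdist : ∀ i j : ℕ, j ≠ 0 → ‖T (i + j) - T i‖ = ‖T (0 + j) - T 0‖ := by
    intro i j hj
    have h1 := hsqr i j hj
    have h2 := hsqr 0 j hj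
    have hRpos : 0 < ‖Rr g (u 0) (v 0) (u (j * w)) (v (j * w))‖ := by
      rcases (norm_nonneg (Rr g (u 0) (v 0) (u (j * w)) (v (j * w)))).lt_or_eq with h | h
      · exact h
      · rw [← h, zero_mul] at h1
        exact absurd h1 (by positivity)
    rw [← h2] at h1
    have h3 := mul_left_cancel₀ hRpos.ne' h1
    have h4 := (pow_left_inj₀ (by positivity) (by positivity) two_ne_zero).1 h3
    exact mul_right_cancel₀ hβ0.ne' h4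
  have hρ1 : ‖T 1 - T 0‖ * ‖β‖ * Real.sqrt ‖R‖ = μ := by
    have h1 := hsqr 0 1 one_ne_zero
    rw [one_mul, zero_add, ← hR] at h1
    have h2 : (‖T 1 - T 0‖ * ‖β‖ * Real.sqrt ‖R‖) ^ 2 = μ ^ 2 := by
      rw [mul_pow, Real.sq_sqrt (norm_nonneg _), ← h1]
      ring
    exact (pow_left_inj₀ (by positivity) hμ.le two_ne_zero).1 h2
  have hRpos : 0 < ‖R‖ := lt_of_lt_of_le (by positivity) hD2
  have hsR : 0 < Real.sqrt ‖R‖ := Real.sqrt_pos.2 hRpos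
  obtain ⟨N, c, hNc⟩ := hseq p T K hK0.le (by
    intro j hj
    refine ⟨‖T (0 + j) - T 0‖, norm_pos_iff.2 (sub_ne_zero.2 (hrelT 0 j hj).2.1), fun i => ?_⟩
    refine ⟨hdist i j hj, ?_⟩
    obtain ⟨c1, c2, c3⟩ := hrelT i j hj
    obtain ⟨d1, d2, d3⟩ := hrelT (i + j) j hj
    obtain ⟨e1, e2, e3⟩ := hrelT i (2 * j) (by omega)
    have hidx : i + j + j = i + 2 * j := by ring
    rw [hidx] at d2 d3
    have hf2 := (hrelT (i + 2 * j) j hj).1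
    have h1 := hL.second (hT i) (hS i) (hT (i + j)) (hS (i + j)) (hT (i + 2 * j))
      (hS (i + 2 * j)) c1 hf2 c3 d3 e2.symm
    rw [hdist i j hj] at h1
    exact h1) (by
    -- the smallness
    have h2 : K * p * μ / ‖β‖ < Real.sqrt ‖R‖ := by
      refine Real.lt_sqrt_of_sq_lt ?_
      linarith
    have h3 : ‖T 1 - T 0‖ = μ / (‖β‖ * Real.sqrt ‖R‖) := by
      rw [eq_div_iff (by positivity), ← hρ1]
      ring
    rw [h3]
    rw [div_lt_iff₀ hβ0] at h2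
    have h4 : K * (μ / (‖β‖ * Real.sqrt ‖R‖)) * p = K * p * μ / (Real.sqrt ‖R‖ * ‖β‖) := by
      field_simp
    rw [h4, div_lt_one (by positivity)]
    exact h2) τ (by
    rw [hT0]
    refine hτ.trans ?_
    rw [← hT0]
    have h3 : ‖T 1 - T 0‖ = μ / (‖β‖ * Real.sqrt ‖R‖) := by
      rw [eq_div_iff (by positivity), ← hρ1]
      ring
    rw [h3]
    have h4 : Real.sqrt ‖R‖ ≤ |M| + 1 := by
      rw [Real.sqrt_le_iff]
      refine ⟨by positivity, ?_⟩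
      have : M ≤ |M| := le_abs_self M
      nlinarith [abs_nonneg M]
    gcongr) ε hε
  have hp00 : p ≠ 0 := hp.out.ne_zero
  unfold Big
  rw [if_neg hp00]
  refine ⟨N, c, fun k hk => ?_⟩
  exact ⟨T k, S k, hN k, hNc k hk, (hS k).trans hrδ⟩

end Pool.Agent.W554.SA
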